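import Mathlib

/-!
# `33` is the largest positive integer that is not a sum of positive powers of the first `L` primes
-/

namespace Pool.Agent.Results.MP_9f71e8_nt.LargestIs33

open Finset

/-- `n` is a sum of positive powers of the first `L` primes, one power of each. -/
def RepL (L n : ℕ) : Prop :=
  ∃ α : ℕ → ℕ, (∀ j, j < L → 1 ≤ α j) ∧ n = ∑ j ∈ range L, Nat.nth Nat.Prime j ^ α j

lemma RepL.succ {L n e : ℕ} (h : RepL L n) (he : 1 ≤ e) :
    RepL (L + 1) (n + Nat.nth Nat.Prime L ^ e) := by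
  obtain ⟨α, h1, h2⟩ := h
  refine ⟨fun j => if j = L then e else α j, ?_, ?_⟩
  · intro j hj
    by_cases hjL : j = L
    · simp [hjL, he]
    · simp only [hjL, if_false]
      exact h1 j (by omega)
  · rw [sum_range_succ]
    simp only [if_true]
    congr 1
    rw [h2]
    refine sum_congr rfl fun j hj => ?_
    have : j ≠ L := by have := mem_range.1 hj; omega
    simp [this]

/-- one step of the bit set computation -/
def stepBits (p : ℕ) : ℕ → ℕ → ℕ
  | 0, _ => 0
  | e + 1, R => (stepBits p e R) ||| (R <<< (p ^ (e + 1)))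

lemma testBit_stepBits (p R n : ℕ) : ∀ e : ℕ, Nat.testBit (stepBits p e R) n = true →
    ∃ a, 1 ≤ a ∧ p ^ a ≤ n ∧ Nat.testBit R (n - p ^ a) = true
  | 0, h => by simp [stepBits] at h
  | e + 1, h => by
    rw [stepBits, Nat.testBit_or, Bool.or_eq_true] at h
    rcases h with h | h
    · exact testBit_stepBits p R n e h
    · rw [Nat.testBit_shiftLeft, Bool.and_eq_true] at h
      exact ⟨e + 1, by omega, by simpa using h.1, h.2⟩

def R1 : ℕ := stepBits 2 20 1
def R2 : ℕ := stepBits 3 12 R1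
def R3 : ℕ := stepBits 5 8 R2
def R4 : ℕ := stepBits 7 7 R3
def R5 : ℕ := stepBits 11 5 R4
def R6 : ℕ := stepBits 13 5 R5
def R7 : ℕ := stepBits 17 4 R6
def R8 : ℕ := stepBits 19 4 R7
def R9 : ℕ := stepBits 23 4 R8

lemma nth0 : Nat.nth Nat.Prime 0 = 2 := Nat.nth_count (p := Nat.Prime) (n := 2) (by norm_num)
lemma nth1 : Nat.nth Nat.Prime 1 = 3 := by
  have h : Nat.count Nat.Prime 3 = 1 := by decide
  rw [← h]; exact Nat.nth_count (p := Nat.Prime) (n := 3) (by norm_num)
lemma nth2 : Nat.nth Nat.Prime 2 = 5 := by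
  have h : Nat.count Nat.Prime 5 = 2 := by decide
  rw [← h]; exact Nat.nth_count (p := Nat.Prime) (n := 5) (by norm_num)
lemma nth3 : Nat.nth Nat.Prime 3 = 7 := by
  have h : Nat.count Nat.Prime 7 = 3 := by decide
  rw [← h]; exact Nat.nth_count (p := Nat.Prime) (n := 7) (by norm_num)
lemma nth4 : Nat.nth Nat.Prime 4 = 11 := by
  have h : Nat.count Nat.Prime 11 = 4 := by decide
  rw [← h]; exact Nat.nth_count (p := Nat.Prime) (n := 11) (by norm_num)
lemma nth5 : Nat.nth Nat.Prime 5 = 13 := by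
  have h : Nat.count Nat.Prime 13 = 5 := by decide
  rw [← h]; exact Nat.nth_count (p := Nat.Prime) (n := 13) (by norm_num)
lemma nth6 : Nat.nth Nat.Prime 6 = 17 := by
  have h : Nat.count Nat.Prime 17 = 6 := by decide
  rw [← h]; exact Nat.nth_count (p := Nat.Prime) (n := 17) (by norm_num)
lemma nth7 : Nat.nth Nat.Prime 7 = 19 := by
  have h : Nat.count Nat.Prime 19 = 7 := by decide
  rw [← h]; exact Nat.nth_count (p := Nat.Prime) (n := 19) (by norm_num)
lemma nth8 : Nat.nth Nat.Prime 8 = 23 := by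
  have h : Nat.count Nat.Prime 23 = 8 := by decide
  rw [← h]; exact Nat.nth_count (p := Nat.Prime) (n := 23) (by norm_num)
lemma nth9 : Nat.nth Nat.Prime 9 = 29 := by
  have h : Nat.count Nat.Prime 29 = 9 := by decide
  rw [← h]; exact Nat.nth_count (p := Nat.Prime) (n := 29) (by norm_num)

lemma rep_of_step {L p e R : ℕ} (hp : Nat.nth Nat.Prime L = p)
    (hR : ∀ n, Nat.testBit R n = true → RepL L n) :
    ∀ n, Nat.testBit (stepBits p e R) n = true → RepL (L + 1) n := by
  intro n hn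
  obtain ⟨a, ha, h1, h2⟩ := testBit_stepBits p R n e hn
  have := (hR _ h2).succ ha
  rw [hp] at this
  rwa [Nat.sub_add_cancel h1] at this

lemma rep0 : ∀ n, Nat.testBit 1 n = true → RepL 0 n := by
  intro n hn
  have : n = 0 := by
    by_contra h
    obtain ⟨m, rfl⟩ := Nat.exists_eq_succ_of_ne_zero h
    simp [Nat.testBit_succ] at hn
  subst this
  exact ⟨fun _ => 1, by simp, by simp⟩

lemma rep1 : ∀ n, Nat.testBit R1 n = true → RepL 1 n := rep_of_step nth0 rep0
lemma rep2 : ∀ n, Nat.testBit R2 n = true → RepL 2 n := rep_of_step nth1 rep1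
lemma rep3 : ∀ n, Nat.testBit R3 n = true → RepL 3 n := rep_of_step nth2 rep2
lemma rep4 : ∀ n, Nat.testBit R4 n = true → RepL 4 n := rep_of_step nth3 rep3
lemma rep5 : ∀ n, Nat.testBit R5 n = true → RepL 5 n := rep_of_step nth4 rep4
lemma rep6 : ∀ n, Nat.testBit R6 n = true → RepL 6 n := rep_of_step nth5 rep5
lemma rep7 : ∀ n, Nat.testBit R7 n = true → RepL 7 n := rep_of_step nth6 rep6
lemma rep8 : ∀ n, Nat.testBit R8 n = true → RepL 8 n := rep_of_step nth7 rep7
lemma rep9 : ∀ n, Nat.testBit R9 n = true → RepL 9 n := rep_of_step nth8 rep8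

/-- the mask with bits at the even positions below `2 ^ (m + 1)` -/
def mask : ℕ → ℕ
  | 0 => 1
  | m + 1 => (mask m) ||| ((mask m) <<< (2 ^ (m + 1)))

lemma testBit_mask : ∀ m i : ℕ, i < 2 ^ m → Nat.testBit (mask m) (2 * i) = true
  | 0, i, h => by
    have : i = 0 := by simpa using h
    subst this
    simp [mask]
  | m + 1, i, h => by
    rw [mask, Nat.testBit_or, Bool.or_eq_true]
    by_cases hi : i < 2 ^ m
    · exact Or.inl (testBit_mask m i hi)
    · right
      rw [Nat.testBit_shiftLeft, Bool.and_eq_true]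
      have h2 : 2 ^ (m + 1) = 2 * 2 ^ m := by rw [pow_succ]; ring
      refine ⟨by simp only [ge_iff_le, decide_eq_true_eq]; omega, ?_⟩
      have : 2 * i - 2 ^ (m + 1) = 2 * (i - 2 ^ m) := by omega
      rw [this]
      exact testBit_mask m _ (by omega)

set_option maxRecDepth 100000 in
lemma base_check : (R9 >>> 216) &&& mask 19 = mask 19 := by decide +kernel

lemma base9 : ∀ n, n % 2 = 0 → 216 ≤ n → n ≤ 216 + 1048574 → RepL 9 n := by
  intro n h1 h2 h3
  apply rep9
  obtain ⟨i, hi⟩ : ∃ i, n = 216 + 2 * i := ⟨(n - 216) / 2, by omega⟩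
  have h4 : i < 2 ^ 19 := by norm_num; omega
  have h5 := testBit_mask 19 i h4
  rw [← base_check, Nat.testBit_and, Bool.and_eq_true, Nat.testBit_shiftRight] at h5
  rw [hi]
  exact h5.1

set_option maxRecDepth 100000 in
lemma small_check : ∀ n, n < 216 →
    Nat.testBit (R1 ||| R2 ||| R3 ||| R4 ||| R5 ||| R6 ||| R7 ||| R8 ||| R9) (34 + n) = true := by
  decide +kernel

lemma small : ∀ n, 34 ≤ n → n < 250 → ∃ L, 1 ≤ L ∧ RepL L n := by
  intro n h1 h2
  have h := small_check (n - 34) (by omega)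
  rw [show 34 + (n - 34) = n by omega] at h
  simp only [Nat.testBit_or, Bool.or_eq_true] at h
  rcases h with (((((((h | h) | h) | h) | h) | h) | h) | h) | h
  · exact ⟨1, by norm_num, rep1 n h⟩
  · exact ⟨2, by norm_num, rep2 n h⟩
  · exact ⟨3, by norm_num, rep3 n h⟩
  · exact ⟨4, by norm_num, rep4 n h⟩
  · exact ⟨5, by norm_num, rep5 n h⟩
  · exact ⟨6, by norm_num, rep6 n h⟩
  · exact ⟨7, by norm_num, rep7 n h⟩
  · exact ⟨8, by norm_num, rep8 n h⟩
  · exact ⟨9, by norm_num, rep9 n h⟩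


/-- the `k`-th prime, counting from zero -/
noncomputable def q (k : ℕ) : ℕ := Nat.nth Nat.Prime k

lemma q_prime (k : ℕ) : (q k).Prime := Nat.prime_nth_prime k

lemma q_strictMono : StrictMono q := Nat.nth_strictMono Nat.infinite_setOfPred_prime

lemma q_nine : q 9 = 29 := nth9

lemma exists_index {p : ℕ} (hp : p.Prime) : ∃ j, q j = p :=
  ⟨Nat.count Nat.Prime p, Nat.nth_count hp⟩

noncomputable def A (k : ℕ) : ℕ := (∑ j ∈ range k, q j) + 116

noncomputable def V (k : ℕ) : ℕ := 1048574 + ∑ j ∈ Ico 9 k, (q j ^ 2 - q j)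

lemma sum_le_V {k : ℕ} (hk : 9 ≤ k) (S : Finset ℕ) (hS : ∀ p ∈ S, p.Prime ∧ 29 ≤ p ∧ p ≤ q k) :
    1048574 + ∑ p ∈ S, (p ^ 2 - p) ≤ V (k + 1) := by
  unfold V
  have hsub : S ⊆ (Ico 9 (k + 1)).image q := by
    intro p hp
    obtain ⟨h1, h2, h3⟩ := hS p hp
    obtain ⟨j, rfl⟩ := exists_index h1
    rw [mem_image]
    refine ⟨j, mem_Ico.2 ⟨?_, ?_⟩, rfl⟩
    · rw [← q_nine] at h2
      exact q_strictMono.le_iff_le.1 h2
    · have := q_strictMono.le_iff_le.1 h3
      omega
  have h1 : ∑ p ∈ S, (p ^ 2 - p) ≤ ∑ p ∈ (Ico 9 (k + 1)).image q, (p ^ 2 - p) :=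
    sum_le_sum_of_subset hsub
  rw [sum_image (fun a _ b _ h => q_strictMono.injective h)] at h1
  omega

lemma q_succ_le (k : ℕ) : q (k + 1) ≤ 2 * q k := by
  obtain ⟨p, hp, h1, h2⟩ := Nat.exists_prime_lt_and_le_two_mul (q k) (q_prime k).ne_zero
  obtain ⟨j, rfl⟩ := exists_index hp
  have hj : k < j := q_strictMono.lt_iff_lt.1 h1
  exact (q_strictMono.monotone hj).trans h2

def S1 : Finset ℕ := {509, 503, 499, 491, 487, 479, 467, 463, 461, 457, 449, 443, 439, 433, 431}
def S2 : Finset ℕ := {1021, 1019, 1013, 1009, 997, 991, 983, 977, 971, 967, 953, 947, 941, 937, 929,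
  919, 911}
def S3 : Finset ℕ := {2039, 2029, 2027, 2017, 2011, 2003, 1999, 1997, 1993, 1987, 1979, 1973, 1951,
  1949, 1933, 1931, 1913}
def S4 : Finset ℕ := {4093, 4091, 4079, 4073, 4057, 4051, 4049, 4027, 4021, 4019, 4013, 4007, 4003,
  4001, 3989, 3967, 3947}

lemma hS1 : ∀ p ∈ S1, p.Prime ∧ 29 ≤ p ∧ p ≤ 512 := by
  intro p hp
  simp only [S1, mem_insert, mem_singleton] at hp
  rcases hp with rfl | rfl | rfl | rfl | rfl | rfl | rfl | rfl | rfl | rfl | rfl | rfl | rfl | rfl |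
    rfl <;> norm_num

lemma hS2 : ∀ p ∈ S2, p.Prime ∧ 29 ≤ p ∧ p ≤ 1024 := by
  intro p hp
  simp only [S2, mem_insert, mem_singleton] at hp
  rcases hp with rfl | rfl | rfl | rfl | rfl | rfl | rfl | rfl | rfl | rfl | rfl | rfl | rfl | rfl |
    rfl | rfl | rfl <;> norm_num

lemma hS3 : ∀ p ∈ S3, p.Prime ∧ 29 ≤ p ∧ p ≤ 2048 := by
  intro p hp
  simp only [S3, mem_insert, mem_singleton] at hp
  rcases hp with rfl | rfl | rfl | rfl | rfl | rfl | rfl | rfl | rfl | rfl | rfl | rfl | rfl | rfl |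
    rfl | rfl | rfl <;> norm_num

lemma hS4 : ∀ p ∈ S4, p.Prime ∧ 29 ≤ p ∧ p ≤ 4096 := by
  intro p hp
  simp only [S4, mem_insert, mem_singleton] at hp
  rcases hp with rfl | rfl | rfl | rfl | rfl | rfl | rfl | rfl | rfl | rfl | rfl | rfl | rfl | rfl |
    rfl | rfl | rfl <;> norm_num

lemma sumS1 : 4 * 1023 ^ 2 ≤ 1048574 + ∑ p ∈ S1, (p ^ 2 - p) := by decide +kernel
lemma sumS2 : 4 * 2047 ^ 2 ≤ 1048574 + ∑ p ∈ S2, (p ^ 2 - p) := by decide +kernel
lemma sumS3 : 4 * 4095 ^ 2 ≤ 1048574 + ∑ p ∈ S3, (p ^ 2 - p) := by decide +kernel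
lemma sumS4 : 4 * 8191 ^ 2 ≤ 1048574 + ∑ p ∈ S4, (p ^ 2 - p) := by decide +kernel

/-- for `x ≥ 8192` there are at least `65` primes in `(x / 4, x]` -/
lemma many_primes (x : ℕ) (hx : 8192 ≤ x) : 65 ≤ ((Ioc (x / 4) x).filter Nat.Prime).card := by
  have hx' : (8192 : ℝ) ≤ x := by exact_mod_cast hx
  have hx0 : (0 : ℝ) < x := by linarith
  have h1 := Chebyshev.theta_ge x
  have h2 : Chebyshev.theta ((x / 4 : ℕ) : ℝ) ≤ Real.log 4 * ((x : ℝ) / 4) := by
    refine (Chebyshev.theta_le_log4_mul_x (by positivity)).trans ?_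
    have : ((x / 4 : ℕ) : ℝ) ≤ (x : ℝ) / 4 := by
      have := @Nat.cast_div_le ℝ _ _ _ x 4
      simpa using this
    have h4 : 0 ≤ Real.log 4 := Real.log_nonneg (by norm_num)
    exact mul_le_mul_of_nonneg_left this h4
  have hlogx : 0 < Real.log x := Real.log_pos (by linarith)
  -- difference of theta
  have h3 : Chebyshev.theta (x : ℝ) - Chebyshev.theta ((x / 4 : ℕ) : ℝ) ≤
      ((Ioc (x / 4) x).filter Nat.Prime).card * Real.log x := by
    have e1 : ∀ m : ℕ, Chebyshev.theta (m : ℝ) = ∑ p ∈ (Ioc 0 m).filter Nat.Prime, Real.log p := by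
      intro m
      unfold Chebyshev.theta
      rw [Nat.floor_natCast]
    rw [e1, e1]
    have hsplit : (Ioc 0 x).filter Nat.Prime =
        (Ioc 0 (x / 4)).filter Nat.Prime ∪ (Ioc (x / 4) x).filter Nat.Prime := by
      rw [← filter_union]
      congr 1
      ext a
      simp only [mem_Ioc, mem_union]
      omega
    have hdisj : Disjoint ((Ioc 0 (x / 4)).filter Nat.Prime) ((Ioc (x / 4) x).filter Nat.Prime) := by
      rw [Finset.disjoint_left]
      intro a ha hb
      simp only [mem_filter, mem_Ioc] at ha hb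
      omega
    rw [hsplit, sum_union hdisj, add_sub_cancel_left]
    calc ∑ p ∈ (Ioc (x / 4) x).filter Nat.Prime, Real.log p
        ≤ ∑ p ∈ (Ioc (x / 4) x).filter Nat.Prime, Real.log x := by
          refine sum_le_sum fun p hp => ?_
          have hp' := mem_filter.1 hp
          have h5 : p ≤ x := (mem_Ioc.1 hp'.1).2
          have h6 : 0 < p := hp'.2.pos
          exact Real.log_le_log (by exact_mod_cast h6) (by exact_mod_cast h5)
      _ = _ := by rw [sum_const, nsmul_eq_mul]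
  -- numerical estimates
  have hlog2 : 0.6931 < Real.log 2 := lt_trans (by norm_num) Real.log_two_gt_d9
  have hlog4 : Real.log 4 = 2 * Real.log 2 := by
    rw [show (4 : ℝ) = 2 ^ 2 by norm_num, Real.log_pow]; norm_num
  set y := Real.sqrt x with hy
  have hyy : y * y = x := Real.mul_self_sqrt hx0.le
  have hy90 : 90.5 ≤ y := by
    rw [hy]
    apply Real.le_sqrt_of_sq_le
    linarith [show (90.5 : ℝ) ^ 2 ≤ 8192 by norm_num]
  have hy0 : 0 < y := by linarith
  have hlogy : Real.log x ≤ y / 8 := by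
    have h7 : Real.log x = 2 * Real.log y := by
      rw [← hyy, Real.log_mul hy0.ne' hy0.ne']; ring
    have h8 : Real.log (y / Real.exp 4) ≤ y / Real.exp 4 - 1 :=
      Real.log_le_sub_one_of_pos (by positivity)
    rw [Real.log_div hy0.ne' (Real.exp_pos 4).ne', Real.log_exp] at h8
    have h9 : (54 : ℝ) ≤ Real.exp 4 := by
      have h10 := Real.exp_one_gt_d9
      have h11 : Real.exp 4 = (Real.exp 1) ^ 4 := by
        rw [← Real.exp_nat_mul]; norm_num
      rw [h11]
      calc (54 : ℝ) ≤ 2.7182818283 ^ 4 := by norm_num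
        _ ≤ (Real.exp 1) ^ 4 := by gcongr
    have h12 : y / Real.exp 4 ≤ y / 54 := by gcongr
    rw [h7]
    linarith
  have hlogx1 : Real.log ((x : ℝ) + 1) ≤ Real.log x + 1 := by
    have h13 : Real.log (((x : ℝ) + 1) / x) ≤ ((x : ℝ) + 1) / x - 1 :=
      Real.log_le_sub_one_of_pos (by positivity)
    rw [Real.log_div (by positivity) hx0.ne'] at h13
    have h14 : ((x : ℝ) + 1) / x - 1 ≤ 1 := by
      rw [add_div, div_self hx0.ne']
      have : 1 / (x : ℝ) ≤ 1 := by
        rw [div_le_one hx0]; linarith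
      linarith
    linarith
  have hmain : 65 * Real.log x ≤
      ((Ioc (x / 4) x).filter Nat.Prime).card * Real.log x := by
    have a1 : (x : ℝ) * Real.log 2 - Real.log ((x : ℝ) + 1) - 2 * y * Real.log x -
        Real.log 4 * ((x : ℝ) / 4) ≤ ((Ioc (x / 4) x).filter Nat.Prime).card * Real.log x := by
      linarith
    refine le_trans ?_ a1
    rw [hlog4]
    have a2 : 2 * y * Real.log x ≤ 2 * y * (y / 8) := by gcongr
    have a3 : (x : ℝ) * Real.log 2 - 2 * Real.log 2 * ((x : ℝ) / 4) = (y * y) * (Real.log 2 / 2) := by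
      rw [hyy]; ring
    have a4 : (y * y) * 0.34655 ≤ (y * y) * (Real.log 2 / 2) := by
      have : 0.34655 ≤ Real.log 2 / 2 := by linarith
      gcongr
    nlinarith
  have := le_of_mul_le_mul_right hmain hlogx
  exact_mod_cast this

lemma V_ge_aux {k : ℕ} (hk : 9 ≤ k) : 4 * q k ^ 2 ≤ V (k + 1) := by
  rcases lt_or_ge (q k) 512 with h1 | h1
  · have h2 := sum_le_V hk ∅ (by simp)
    rw [sum_empty] at h2
    have h3 : q k ^ 2 ≤ 511 ^ 2 := Nat.pow_le_pow_left (by omega) 2
    omega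
  rcases lt_or_ge (q k) 1024 with h2 | h2
  · have h3 := sum_le_V hk S1 (fun p hp => ⟨(hS1 p hp).1, (hS1 p hp).2.1, (hS1 p hp).2.2.trans h1⟩)
    have h4 : q k ^ 2 ≤ 1023 ^ 2 := Nat.pow_le_pow_left (by omega) 2
    have := sumS1
    omega
  rcases lt_or_ge (q k) 2048 with h3 | h3
  · have h4 := sum_le_V hk S2 (fun p hp => ⟨(hS2 p hp).1, (hS2 p hp).2.1, (hS2 p hp).2.2.trans h2⟩)
    have h5 : q k ^ 2 ≤ 2047 ^ 2 := Nat.pow_le_pow_left (by omega) 2
    have := sumS2
    omega
  rcases lt_or_ge (q k) 4096 with h4 | h4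
  · have h5 := sum_le_V hk S3 (fun p hp => ⟨(hS3 p hp).1, (hS3 p hp).2.1, (hS3 p hp).2.2.trans h3⟩)
    have h6 : q k ^ 2 ≤ 4095 ^ 2 := Nat.pow_le_pow_left (by omega) 2
    have := sumS3
    omega
  rcases lt_or_ge (q k) 8192 with h5 | h5
  · have h6 := sum_le_V hk S4 (fun p hp => ⟨(hS4 p hp).1, (hS4 p hp).2.1, (hS4 p hp).2.2.trans h4⟩)
    have h7 : q k ^ 2 ≤ 8191 ^ 2 := Nat.pow_le_pow_left (by omega) 2
    have := sumS4
    omega
  · set x := q k with hx
    have h6 := sum_le_V hk ((Ioc (x / 4) x).filter Nat.Prime) (by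
      intro p hp
      have hp' := mem_filter.1 hp
      have hp'' := mem_Ioc.1 hp'.1
      exact ⟨hp'.2, by omega, hp''.2⟩)
    have h7 : ∑ p ∈ (Ioc (x / 4) x).filter Nat.Prime, (x / 4) * (x / 4) ≤
        ∑ p ∈ (Ioc (x / 4) x).filter Nat.Prime, (p ^ 2 - p) := by
      refine sum_le_sum fun p hp => ?_
      have hp' := mem_filter.1 hp
      have hp'' := mem_Ioc.1 hp'.1
      obtain ⟨r, hr⟩ : ∃ r, p = r + 1 := ⟨p - 1, by have := hp'.2.pos; omega⟩
      have e : p ^ 2 - p = r * (r + 1) := by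
        rw [hr]
        have : (r + 1) ^ 2 = r * (r + 1) + (r + 1) := by ring
        omega
      rw [e]
      exact Nat.mul_le_mul (by omega) (by omega)
    rw [sum_const, smul_eq_mul] at h7
    have h8 := many_primes x h5
    have h9 : 65 * ((x / 4) * (x / 4)) ≤
        ((Ioc (x / 4) x).filter Nat.Prime).card * ((x / 4) * (x / 4)) := Nat.mul_le_mul_right _ h8
    obtain ⟨z, r, hz, hr⟩ : ∃ z r, x = 4 * z + r ∧ r < 4 := ⟨x / 4, x % 4, by omega, by omega⟩
    have hz4 : x / 4 = z := by omega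
    rw [hz4] at h7 h9
    have h10 : 2048 ≤ z := by omega
    have h11 : x ^ 2 ≤ 16 * (z * z) + 24 * z + 9 := by
      have : x ≤ 4 * z + 3 := by omega
      calc x ^ 2 ≤ (4 * z + 3) ^ 2 := Nat.pow_le_pow_left this 2
        _ = _ := by ring
    have h12 : 2048 * z ≤ z * z := Nat.mul_le_mul_right z h10
    rw [hz4] at h6
    omega

lemma V_ge {k : ℕ} (hk : 9 ≤ k) : q k ^ 2 - q k ≤ V k := by
  rcases Nat.eq_or_lt_of_le hk with h | h
  · rw [← h, q_nine]
    unfold V
    omega
  · obtain ⟨j, rfl⟩ : ∃ j, k = j + 1 := ⟨k - 1, by omega⟩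
    have h1 := V_ge_aux (k := j) (by omega)
    have h2 := q_succ_le j
    have h3 : q (j + 1) ^ 2 ≤ (2 * q j) ^ 2 := Nat.pow_le_pow_left h2 2
    have h4 : (2 * q j) ^ 2 = 4 * q j ^ 2 := by ring
    omega

lemma A_nine : A 9 = 216 := by
  unfold A q
  simp only [sum_range_succ, range_zero, sum_empty, nth0, nth1, nth2, nth3, nth4, nth5, nth6, nth7,
    nth8]

lemma cover : ∀ k, 9 ≤ k → ∀ n, n % 2 = (k + 1) % 2 → A k ≤ n → n ≤ A k + V k → RepL k n := by
  intro k hk
  induction k, hk using Nat.le_induction with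
  | base =>
    intro n h1 h2 h3
    have hV : V 9 = 1048574 := by simp [V]
    rw [A_nine] at h2 h3
    rw [hV] at h3
    exact base9 n (by omega) h2 h3
  | succ k hk ih =>
    intro n h1 h2 h3
    have hodd : q k % 2 = 1 := by
      rcases (q_prime k).eq_two_or_odd with h | h
      · have : q 9 ≤ q k := q_strictMono.monotone hk
        rw [q_nine] at this
        omega
      · exact h
    have hA : A (k + 1) = A k + q k := by
      unfold A
      rw [sum_range_succ]
      ring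
    have hV : V (k + 1) = V k + (q k ^ 2 - q k) := by
      unfold V
      rw [sum_Ico_succ_top hk]
      ring
    have hq2 : q k ≤ q k ^ 2 := by nlinarith [(q_prime k).pos]
    have hVk := V_ge hk
    rw [hA] at h2 h3
    rw [hV] at h3
    by_cases hn : n ≤ A k + q k + V k
    · have h4 := (ih (n - q k) (by omega) (by omega) (by omega)).succ (e := 1) le_rfl
      change RepL (k + 1) (n - q k + q k ^ 1) at h4
      rwa [pow_one, Nat.sub_add_cancel (by omega)] at h4
    · have hodd2 : q k ^ 2 % 2 = 1 := by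
        rw [Nat.pow_mod, hodd]
      have h4 := (ih (n - q k ^ 2) (by omega) (by omega) (by omega)).succ (e := 2) (by norm_num)
      change RepL (k + 1) (n - q k ^ 2 + q k ^ 2) at h4
      rwa [Nat.sub_add_cancel (by omega)] at h4

lemma A_succ (k : ℕ) : A (k + 1) = A k + q k := by
  unfold A
  rw [sum_range_succ]
  ring

lemma le_A (k : ℕ) : k ≤ A k := by
  induction k with
  | zero => simp
  | succ k ih =>
    rw [A_succ]
    have := (q_prime k).pos
    omega

/-- every `n ≥ A k0` lies in one of the intervals `[A k, A (k + 2))`, `k = k0 + 2 j` -/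
lemma exists_k (k0 n : ℕ) (hn : A k0 ≤ n) :
    ∃ j, A (k0 + 2 * j) ≤ n ∧ n < A (k0 + 2 * (j + 1)) := by
  have hex : ∃ j, n < A (k0 + 2 * (j + 1)) := by
    refine ⟨n, ?_⟩
    have := le_A (k0 + 2 * (n + 1))
    omega
  classical
  refine ⟨Nat.find hex, ?_, Nat.find_spec hex⟩
  by_cases h0 : Nat.find hex = 0
  · rw [h0]; simpa using hn
  · have h1 := Nat.find_min hex (m := Nat.find hex - 1) (by omega)
    rw [not_lt] at h1
    rwa [show Nat.find hex - 1 + 1 = Nat.find hex by omega] at h1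

lemma main_large (k0 n : ℕ) (hk0 : 9 ≤ k0) (hn : A k0 ≤ n) (hpar : n % 2 = (k0 + 1) % 2) :
    ∃ L, 1 ≤ L ∧ RepL L n := by
  obtain ⟨j, h1, h2⟩ := exists_k k0 n hn
  set k := k0 + 2 * j with hk
  have hk9 : 9 ≤ k := by omega
  refine ⟨k, by omega, cover k hk9 n (by omega) h1 ?_⟩
  have h3 : k0 + 2 * (j + 1) = k + 1 + 1 := by omega
  rw [h3, A_succ, A_succ] at h2
  have h4 := V_ge hk9
  have h5 := q_succ_le k
  have h6 : 29 ≤ q k := by rw [← q_nine]; exact q_strictMono.monotone hk9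
  have h7 : 29 * q k ≤ q k ^ 2 := by
    rw [pow_two]; exact Nat.mul_le_mul_right _ h6
  omega

lemma exp_le {p a m c : ℕ} (hp : 1 < p) (h : p ^ a ≤ c) (hc : c < p ^ (m + 1)) : a ≤ m := by
  by_contra hcon
  have : p ^ (m + 1) ≤ p ^ a := Nat.pow_le_pow_right (by omega) (by omega)
  omega

lemma not_thirty_three (L : ℕ) (hL : 1 ≤ L) (α : ℕ → ℕ) (hα : ∀ j, j < L → 1 ≤ α j)
    (hsum : 33 = ∑ j ∈ range L, Nat.nth Nat.Prime j ^ α j) : False := by
  have hL6 : L < 6 := by
    by_contra hcon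
    have h1 : ∑ j ∈ range 6, Nat.nth Nat.Prime j ≤ ∑ j ∈ range 6, Nat.nth Nat.Prime j ^ α j := by
      refine sum_le_sum fun j hj => ?_
      have hj' := mem_range.1 hj
      exact Nat.le_self_pow (by have := hα j (by omega); omega) _
    have h2 : ∑ j ∈ range 6, Nat.nth Nat.Prime j ^ α j ≤
        ∑ j ∈ range L, Nat.nth Nat.Prime j ^ α j := by
      refine sum_le_sum_of_subset ?_
      intro j hj
      have := mem_range.1 hj
      exact mem_range.2 (by omega)
    rw [← hsum] at h2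
    simp only [sum_range_succ, range_zero, sum_empty, nth0, nth1, nth2, nth3, nth4, nth5] at h1 h2
    omega
  have hle : ∀ j, j < L → Nat.nth Nat.Prime j ^ α j ≤ 33 := by
    intro j hj
    rw [hsum]
    exact single_le_sum (f := fun j => Nat.nth Nat.Prime j ^ α j) (fun _ _ => Nat.zero_le _)
      (mem_range.2 hj)
  have b0 : 1 ≤ α 0 ∧ α 0 ≤ 5 := by
    have := hle 0 (by omega)
    rw [nth0] at this
    exact ⟨hα 0 (by omega), exp_le (by norm_num) this (by norm_num)⟩
  interval_cases L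
  · simp only [sum_range_succ, range_zero, sum_empty, nth0] at hsum
    obtain ⟨c0, d0⟩ := b0
    interval_cases α 0 <;> omega
  · have b1 : 1 ≤ α 1 ∧ α 1 ≤ 3 := by
      have := hle 1 (by omega)
      rw [nth1] at this
      exact ⟨hα 1 (by omega), exp_le (by norm_num) this (by norm_num)⟩
    simp only [sum_range_succ, range_zero, sum_empty, nth0, nth1] at hsum
    obtain ⟨c0, d0⟩ := b0
    obtain ⟨c1, d1⟩ := b1
    interval_cases α 0 <;> interval_cases α 1 <;> omega
  · have b1 : 1 ≤ α 1 ∧ α 1 ≤ 3 := by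
      have := hle 1 (by omega)
      rw [nth1] at this
      exact ⟨hα 1 (by omega), exp_le (by norm_num) this (by norm_num)⟩
    have b2 : 1 ≤ α 2 ∧ α 2 ≤ 2 := by
      have := hle 2 (by omega)
      rw [nth2] at this
      exact ⟨hα 2 (by omega), exp_le (by norm_num) this (by norm_num)⟩
    simp only [sum_range_succ, range_zero, sum_empty, nth0, nth1, nth2] at hsum
    obtain ⟨c0, d0⟩ := b0
    obtain ⟨c1, d1⟩ := b1
    obtain ⟨c2, d2⟩ := b2
    interval_cases α 0 <;> interval_cases α 1 <;> interval_cases α 2 <;> omega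
  · have b1 : 1 ≤ α 1 ∧ α 1 ≤ 3 := by
      have := hle 1 (by omega)
      rw [nth1] at this
      exact ⟨hα 1 (by omega), exp_le (by norm_num) this (by norm_num)⟩
    have b2 : 1 ≤ α 2 ∧ α 2 ≤ 2 := by
      have := hle 2 (by omega)
      rw [nth2] at this
      exact ⟨hα 2 (by omega), exp_le (by norm_num) this (by norm_num)⟩
    have b3 : 1 ≤ α 3 ∧ α 3 ≤ 1 := by
      have := hle 3 (by omega)
      rw [nth3] at this
      exact ⟨hα 3 (by omega), exp_le (by norm_num) this (by norm_num)⟩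
    simp only [sum_range_succ, range_zero, sum_empty, nth0, nth1, nth2, nth3] at hsum
    obtain ⟨c0, d0⟩ := b0
    obtain ⟨c1, d1⟩ := b1
    obtain ⟨c2, d2⟩ := b2
    obtain ⟨c3, d3⟩ := b3
    interval_cases α 0 <;> interval_cases α 1 <;> interval_cases α 2 <;> interval_cases α 3 <;>
      omega
  · have b1 : 1 ≤ α 1 ∧ α 1 ≤ 3 := by
      have := hle 1 (by omega)
      rw [nth1] at this
      exact ⟨hα 1 (by omega), exp_le (by norm_num) this (by norm_num)⟩
    have b2 : 1 ≤ α 2 ∧ α 2 ≤ 2 := by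
      have := hle 2 (by omega)
      rw [nth2] at this
      exact ⟨hα 2 (by omega), exp_le (by norm_num) this (by norm_num)⟩
    have b3 : 1 ≤ α 3 ∧ α 3 ≤ 1 := by
      have := hle 3 (by omega)
      rw [nth3] at this
      exact ⟨hα 3 (by omega), exp_le (by norm_num) this (by norm_num)⟩
    have b4 : 1 ≤ α 4 ∧ α 4 ≤ 1 := by
      have := hle 4 (by omega)
      rw [nth4] at this
      exact ⟨hα 4 (by omega), exp_le (by norm_num) this (by norm_num)⟩
    simp only [sum_range_succ, range_zero, sum_empty, nth0, nth1, nth2, nth3, nth4] at hsum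
    obtain ⟨c0, d0⟩ := b0
    obtain ⟨c1, d1⟩ := b1
    obtain ⟨c2, d2⟩ := b2
    obtain ⟨c3, d3⟩ := b3
    obtain ⟨c4, d4⟩ := b4
    interval_cases α 0 <;> interval_cases α 1 <;> interval_cases α 2 <;> interval_cases α 3 <;>
      interval_cases α 4 <;> omega

/-- **Theorem.** `33` is the largest positive integer that is not of the form
`p_1 ^ α_1 + ... + p_L ^ α_L`, where `L ≥ 1`, the `p_j` are the first `L` primes and all the
exponents `α_j` are at least `1`. -/
theorem result : IsGreatest {n : ℕ | 0 < n ∧ ¬ ∃ L : ℕ, 1 ≤ L ∧ ∃ α : ℕ → ℕ,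
    (∀ j, j < L → 1 ≤ α j) ∧ n = ∑ j ∈ Finset.range L, Nat.nth Nat.Prime j ^ α j} 33 := by
  constructor
  · refine ⟨by norm_num, ?_⟩
    rintro ⟨L, hL, α, hα, hsum⟩
    exact not_thirty_three L hL α hα hsum
  · rintro n ⟨hn0, hn⟩
    by_contra hlt
    push Not at hlt
    apply hn
    change ∃ L, 1 ≤ L ∧ RepL L n
    rcases lt_or_ge n 250 with h | h
    · exact small n (by omega) h
    · rcases Nat.even_or_odd n with he | ho
      · exact main_large 9 n le_rfl (by rw [A_nine]; omega) (by obtain ⟨r, hr⟩ := he; omega)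
      · refine main_large 10 n (by norm_num) ?_ (by obtain ⟨r, hr⟩ := ho; omega)
        rw [A_succ, A_nine, q_nine]
        omega

end Pool.Agent.Results.MP_9f71e8_nt.LargestIs33
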